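import Pool.Agent.Helper64.DG.Defs

/-! MP_866009_co: depth function of a finite strict order. -/

set_option autoImplicit false

namespace Pool.Agent.Helper33.DG

open Pool.Agent.Helper64.DG

theorem st_DEP : ST_DEP := by
  classical
  intro V _ R hirr htr
  have := Fintype.ofFinite V
  have hwf : WellFounded R := by
    have : IsTrans V R := ⟨htr⟩
    have : Std.Irrefl R := ⟨hirr⟩
    exact Finite.wellFounded_of_trans_of_irrefl R
  let F : ∀ y : V, (∀ z, R z y → ℕ) → ℕ := fun y f =>
    Finset.univ.sup fun z => if h : R z y then f z h + 1 else 0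
  let dep : V → ℕ := hwf.fix F
  have hdep : ∀ y, dep y = Finset.univ.sup fun z => if R z y then dep z + 1 else 0 := by
    intro y
    have h1 : dep y = F y (fun z _ => dep z) := hwf.fix_eq F y
    rw [h1]
    simp only [F]
    apply Finset.sup_congr rfl
    intro z _
    by_cases h : R z y
    · simp [h]
    · simp [h]
  refine ⟨dep, ?_, ?_⟩
  · intro z y hz
    have h1 : (if R z y then dep z + 1 else 0) ≤ dep y := by
      rw [hdep y]
      exact Finset.le_sup (f := fun z => if R z y then dep z + 1 else 0) (Finset.mem_univ z)
    rw [if_pos hz] at h1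
    omega
  · intro y hy
    obtain ⟨z, -, hz⟩ := Finset.exists_mem_eq_sup Finset.univ ⟨y, Finset.mem_univ y⟩
      (fun z => if R z y then dep z + 1 else 0)
    rw [← hdep y] at hz
    by_cases h : R z y
    · rw [if_pos h] at hz
      exact ⟨z, h, hz.symm⟩
    · rw [if_neg h] at hz
      omega

end Pool.Agent.Helper33.DG
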